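import Mathlib

/-!
# Signed graphs with a single negative edge fail the negative pair property
-/

namespace Pool.Agent.Results.MP_790549_co.SingleNegativeEdge

open SimpleGraph

/-- a negative circle of the signed graph `(G, s)`: a cycle with an odd number of negative edges
(the product of the signs of its edges is `-1`) -/
def IsNegCircle {V : Type} {G : SimpleGraph V} (s : Sym2 V → ℤˣ) {u : V} (c : G.Walk u u) : Prop :=
  c.IsCycle ∧ (c.edges.map s).prod = -1

/-- the negative pair property -/
def NegPair {V : Type} (G : SimpleGraph V) (s : Sym2 V → ℤˣ) : Prop :=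
  ∀ e ∈ G.edgeSet, ∀ f ∈ G.edgeSet, e ≠ f →
    ∃ (u : V) (c : G.Walk u u), IsNegCircle s c ∧ e ∈ c.edges ∧ f ∈ c.edges

/-- unbalanced signed graphs -/
def Unbalanced {V : Type} (G : SimpleGraph V) (s : Sym2 V → ℤˣ) : Prop :=
  ∃ (u : V) (c : G.Walk u u), IsNegCircle s c

/-- exactly the edge `g` is negative -/
def Single {V : Type} [DecidableEq V] (g : Sym2 V) (x : Sym2 V) : ℤˣ := if x = g then -1 else 1

theorem no_pair {V : Type} [DecidableEq V] (G : SimpleGraph V) (v w a b : V)
    (ha : a ≠ w) (hb : b ≠ w) (hab : a ≠ b) (u : V) (c : G.Walk u u)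
    (hc : IsNegCircle (Single s(v, w)) c) (h1 : s(v, a) ∈ c.edges) (h2 : s(v, b) ∈ c.edges) :
    False := by
  obtain ⟨hcyc, hprod⟩ := hc
  have hnot : s(v, w) ∉ c.edges := by
    intro h3
    have hv : v ∈ c.support := c.fst_mem_support_of_mem_edges h1
    have hcard := hcyc.ncard_neighborSet_toSubgraph_eq_two hv
    have hsub : ({a, b, w} : Set V) ⊆ c.toSubgraph.neighborSet v := by
      intro x hx
      simp only [Set.mem_insert_iff, Set.mem_singleton_iff] at hx
      rw [Subgraph.mem_neighborSet, ← Subgraph.mem_edgeSet, Walk.mem_edges_toSubgraph]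
      rcases hx with rfl | rfl | rfl
      · exact h1
      · exact h2
      · exact h3
    have hfin : (c.toSubgraph.neighborSet v).Finite := by
      apply Set.finite_of_ncard_ne_zero
      rw [hcard]
      norm_num
    have h4 := Set.ncard_le_ncard hsub hfin
    have h5 : ({a, b, w} : Set V).ncard = 3 := by
      rw [Set.ncard_eq_toFinset_card']
      simp [ha, hb, hab]
    omega
  have h6 : (c.edges.map (Single s(v, w))).prod = 1 := by
    apply List.prod_eq_one
    intro x hx
    rw [List.mem_map] at hx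
    obtain ⟨y, hy, rfl⟩ := hx
    unfold Single
    rw [if_neg]
    rintro rfl
    exact hnot hy
  rw [h6] at hprod
  exact absurd hprod (by decide)

/-- (1) In any graph, if the only negative edge `vw` has an end `v` with two further neighbours
`a`, `b`, then no negative circle contains both `va` and `vb`. (2) For every `n ≥ 4` the complete
graph `K_n` with a single negative edge is unbalanced and fails the negative pair property. -/
theorem result :
    (∀ (V : Type) [DecidableEq V] (G : SimpleGraph V) (v w a b : V), G.Adj v w → G.Adj v a →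
      G.Adj v b → a ≠ w → b ≠ w → a ≠ b → ¬ NegPair G (Single s(v, w))) ∧
    ∀ m : ℕ, Unbalanced (⊤ : SimpleGraph (Fin (m + 4))) (Single s(0, 1)) ∧
      ¬ NegPair (⊤ : SimpleGraph (Fin (m + 4))) (Single s(0, 1)) := by
  have key : ∀ (V : Type) [DecidableEq V] (G : SimpleGraph V) (v w a b : V), G.Adj v w →
      G.Adj v a → G.Adj v b → a ≠ w → b ≠ w → a ≠ b → ¬ NegPair G (Single s(v, w)) := by
    intro V _ G v w a b _ hva hvb haw hbw hab h
    obtain ⟨u, c, hc, h1, h2⟩ := h s(v, a) hva s(v, b) hvb (by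
      intro h3
      rw [Sym2.eq_iff] at h3
      rcases h3 with ⟨-, h3⟩ | ⟨h3, h4⟩
      · exact hab h3
      · exact hab (h4.trans h3))
    exact no_pair G v w a b haw hbw hab u c hc h1 h2
  refine ⟨key, fun m => ⟨?_, ?_⟩⟩
  · have e01 : (0 : Fin (m + 4)) ≠ 1 := by
      intro h; simpa using congrArg Fin.val h
    have e12 : (1 : Fin (m + 4)) ≠ 2 := by
      intro h
      have := congrArg Fin.val h
      simp [Fin.val_one, Nat.mod_eq_of_lt] at this
    have e20 : (2 : Fin (m + 4)) ≠ 0 := by
      intro h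
      have := congrArg Fin.val h
      simp [Nat.mod_eq_of_lt] at this
    have h01 : (⊤ : SimpleGraph (Fin (m + 4))).Adj 0 1 := e01
    have h12 : (⊤ : SimpleGraph (Fin (m + 4))).Adj 1 2 := e12
    have h20 : (⊤ : SimpleGraph (Fin (m + 4))).Adj 2 0 := e20
    refine ⟨0, Walk.cons h01 (Walk.cons h12 (Walk.cons h20 Walk.nil)), ?_, ?_⟩
    · rw [Walk.cons_isCycle_iff]
      constructor
      · simp [Walk.cons_isPath_iff, e01, e12, e20, e01.symm, e20.symm, e12.symm]
      · simp [e01, e12, e20, e01.symm, e20.symm, e12.symm]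
    · simp [Single, e01, e12, e20, e01.symm, e20.symm, e12.symm]
  · have e : ∀ i j : ℕ, ∀ hi : i < m + 4, ∀ hj : j < m + 4, i ≠ j →
        (⟨i, hi⟩ : Fin (m + 4)) ≠ ⟨j, hj⟩ := fun i j hi hj hij h => hij (congrArg Fin.val h)
    exact key (Fin (m + 4)) ⊤ ⟨0, by omega⟩ ⟨1, by omega⟩ ⟨2, by omega⟩ ⟨3, by omega⟩
      (e 0 1 _ _ (by norm_num)) (e 0 2 _ _ (by norm_num)) (e 0 3 _ _ (by norm_num))
      (e 2 1 _ _ (by norm_num)) (e 3 1 _ _ (by norm_num)) (e 2 3 _ _ (by norm_num))

end Pool.Agent.Results.MP_790549_co.SingleNegativeEdge
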